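import Pool.Agent.Y961.JR.Field

set_option autoImplicit false

/-!
# Record prime gaps around a number and around several real polynomials in it, at the same time

Let `P₁, …, P_r` be real polynomials of any degrees with positive leading coefficients, and suppose that
no nontrivial integer combination `h₁ P₁ + ⋯ + h_r P_r` has all its coefficients of positive degree
rational (for instance `√2 x`, `√2 x²`, `√3 x² + x⁵`, `√6 x³ - x`, …).

1. If the irrational ones among the sums `h₁ a₁ + ⋯ + h_r a_r`, `a_j` the coefficients of the `P_j` of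
   one and the same positive degree, have distance at least `c H ^ (-τ)` from all integers, for all
   integers `|h_j| ≤ H` (which holds for almost all coefficients), then there is `κ > 0` such that
   for all large `Z` every interval `(M, M + Z]` with `M ≥ Z` contains an integer `n` such that no
   prime lies within `κ f(Z)` of any of the `r + 1` numbers `n, P₁(n), …, P_r(n)`, where
   `f(Z) = log Z (log₂ Z)² log₄ Z / (log₃ Z)²`.
2. In particular this holds for all polynomials with real algebraic coefficients.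

Proof (`Pool.Agent.Y961.JR`). The joint covering sieve for vectors of integers (after
`Pool.Agent.H256R2.SC`, helper256's team, and `Pool.Agent.TH915.PW`, helper915); the vectors of integer
parts of the `P_j(n)` for the `n` of a residue class are equidistributed by Weyl differencing for the
integer combinations of the polynomials, at their highest irrational coefficient; for algebraic
coefficients the norm gives the lower bound.
-/

namespace Pool.Agent.Results.MP_711652_nt.SeveralRealPolynomials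

open Finset

/-- the size of the largest known prime gaps -/
noncomputable def f (Z : ℝ) : ℝ :=
  Real.log Z * (Real.log (Real.log Z)) ^ 2 * Real.log (Real.log (Real.log (Real.log Z))) /
    (Real.log (Real.log (Real.log Z))) ^ 2

/-- no prime is at distance at most `d` from `x` -/
def PrimeFreeAround (x d : ℝ) : Prop := ∀ q : ℕ, q.Prime → d < |(q : ℝ) - x|

theorem result :
    (∀ (r : ℕ) (P : Fin r → Polynomial ℝ), 1 ≤ r → (∀ j, 0 < (P j).leadingCoeff) →
      (∃ c τ : ℝ, 0 < c ∧ 0 ≤ τ ∧ ∀ i, 1 ≤ i → ∀ (H : ℕ) (h : Fin r → ℤ), (∀ j, |h j| ≤ H) →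
        Irrational (∑ j, (h j : ℝ) * (P j).coeff i) → ∀ m : ℤ,
          c * (H : ℝ) ^ (-τ) ≤ |∑ j, (h j : ℝ) * (P j).coeff i - m|) →
      (∀ h : Fin r → ℤ, h ≠ 0 → ∃ i, 1 ≤ i ∧ Irrational (∑ j, (h j : ℝ) * (P j).coeff i)) →
      ∃ κ : ℝ, 0 < κ ∧ ∃ Z₀ : ℝ, ∀ Z : ℝ, Z₀ ≤ Z → ∀ M : ℝ, Z ≤ M →
      ∃ n : ℕ, M < n ∧ (n : ℝ) ≤ M + Z ∧ PrimeFreeAround n (κ * f Z) ∧
        ∀ j, PrimeFreeAround ((P j).eval (n : ℝ)) (κ * f Z)) ∧
    (∀ (K : IntermediateField ℚ ℝ) [FiniteDimensional ℚ K] (r : ℕ) (P : Fin r → Polynomial K),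
      1 ≤ r → (∀ j, 0 < ((P j).map (algebraMap K ℝ)).leadingCoeff) →
      (∀ h : Fin r → ℤ, h ≠ 0 → ∃ i, 1 ≤ i ∧
        Irrational (∑ j, (h j : ℝ) * ((P j).map (algebraMap K ℝ)).coeff i)) →
      ∃ κ : ℝ, 0 < κ ∧ ∃ Z₀ : ℝ, ∀ Z : ℝ, Z₀ ≤ Z → ∀ M : ℝ, Z ≤ M →
      ∃ n : ℕ, M < n ∧ (n : ℝ) ≤ M + Z ∧ PrimeFreeAround n (κ * f Z) ∧
        ∀ j, PrimeFreeAround (((P j).map (algebraMap K ℝ)).eval (n : ℝ)) (κ * f Z)) :=
  ⟨fun r P hr hlc ⟨c, τ, hc, hτ, hdio⟩ hind =>
      Pool.Agent.Y961.JR.polys_main r hr P hlc c τ hc hτ hdio hind,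
    fun K _ r P hr hlc hind => Pool.Agent.Y961.JR.polys_field K r hr P hlc hind⟩

end Pool.Agent.Results.MP_711652_nt.SeveralRealPolynomials
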